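import Pool.Agent.Helper12.ScExt

/-!
# Surface groups in large genus: subalgebras generated by handles

Lists of handles (pairs) in a group, a multiplicative map into a finite dimensional algebra, the
subalgebra generated by a list; moving handles past others.
-/

set_option autoImplicit false

namespace Helper55.Pw

open Helper12.Sc Module

variable {k M Γ : Type*} [Field k] [Ring M] [Algebra k M] [Group Γ]

/-- the elements mapped into a subalgebra of a finite dimensional algebra form a subgroup -/
def hs [FiniteDimensional k M] (R : Γ →* M) (S : Subalgebra k M) : Subgroup Γ where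
  carrier := {x | R x ∈ S}
  one_mem' := by
    rw [Set.mem_ofPred_eq, map_one]
    exact S.one_mem
  mul_mem' := by
    intro x y hx hy
    rw [Set.mem_ofPred_eq] at hx hy ⊢
    rw [map_mul]
    exact S.mul_mem hx hy
  inv_mem' := by
    intro x hx
    rw [Set.mem_ofPred_eq] at hx ⊢
    have h1 : R x * R x⁻¹ = 1 := by rw [← map_mul, mul_inv_cancel, map_one]
    have h2 : R x⁻¹ * R x = 1 := by rw [← map_mul, inv_mul_cancel, map_one]
    let φ : S.toSubmodule →ₗ[k] S.toSubmodule :=
      (LinearMap.mulLeft k (R x)).restrict fun s hs => S.mul_mem hx hs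
    have hφ : Function.Injective φ := by
      intro a b hab
      apply Subtype.ext
      have h3 : R x * (a : M) = R x * (b : M) := congrArg Subtype.val hab
      calc (a : M) = R x⁻¹ * (R x * a) := by rw [← mul_assoc, h2, one_mul]
        _ = R x⁻¹ * (R x * b) := by rw [h3]
        _ = b := by rw [← mul_assoc, h2, one_mul]
    obtain ⟨s, hs⟩ := (LinearMap.injective_iff_surjective.1 hφ) ⟨1, S.one_mem⟩
    have h3 : R x * (s : M) = 1 := congrArg Subtype.val hs
    have h4 : R x⁻¹ = (s : M) := by
      calc R x⁻¹ = R x⁻¹ * (R x * s) := by rw [h3, mul_one]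
        _ = s := by rw [← mul_assoc, h2, one_mul]
    rw [h4]
    exact s.2

theorem mem_hs [FiniteDimensional k M] (R : Γ →* M) (S : Subalgebra k M) (x : Γ) :
    x ∈ hs R S ↔ R x ∈ S := Iff.rfl

theorem hs_mono [FiniteDimensional k M] (R : Γ →* M) {S S' : Subalgebra k M} (h : S ≤ S') :
    hs R S ≤ hs R S' := fun _ hx => h hx

/-- the subalgebra generated by a list of handles -/
def alg (k : Type*) {M Γ : Type*} [Field k] [Ring M] [Algebra k M] [Group Γ] (R : Γ →* M)
    (B : List (Γ × Γ)) : Subalgebra k M := Algebra.adjoin k (R '' entries B)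

theorem entries_sub [FiniteDimensional k M] (R : Γ →* M) (B : List (Γ × Γ)) :
    entries B ⊆ (hs R (alg k R B) : Set Γ) := fun x hx =>
  Algebra.subset_adjoin ⟨x, hx, rfl⟩

theorem closure_sub [FiniteDimensional k M] (R : Γ →* M) (B : List (Γ × Γ)) :
    Subgroup.closure (entries B) ≤ hs R (alg k R B) :=
  (Subgroup.closure_le _).2 (entries_sub R B)

theorem alg_le [FiniteDimensional k M] (R : Γ →* M) (B : List (Γ × Γ)) (S : Subalgebra k M) :
    alg k R B ≤ S ↔ entries B ⊆ (hs R S : Set Γ) := by
  unfold alg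
  rw [Algebra.adjoin_le_iff, Set.image_subset_iff]
  exact Iff.rfl

theorem alg_le' [FiniteDimensional k M] (R : Γ →* M) (B : List (Γ × Γ)) (S : Subalgebra k M) :
    alg k R B ≤ S ↔ Subgroup.closure (entries B) ≤ hs R S := by
  rw [alg_le, Subgroup.closure_le]

theorem alg_reach [FiniteDimensional k M] (R : Γ →* M) {B B' : List (Γ × Γ)} (h : Reach B B') :
    alg k R B' = alg k R B := by
  apply le_antisymm
  · rw [alg_le', h.closure_eq]
    exact closure_sub R B
  · rw [alg_le', ← h.closure_eq]
    exact closure_sub R B'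

theorem alg_mono [FiniteDimensional k M] (R : Γ →* M) {B B' : List (Γ × Γ)}
    (h : entries B ⊆ entries B') : alg k R B ≤ alg k R B' :=
  (alg_le R B _).2 (h.trans (entries_sub R B'))

theorem mem_left [FiniteDimensional k M] (R : Γ →* M) (B C : List (Γ × Γ)) :
    alg k R B ≤ alg k R (B ++ C) := by
  apply alg_mono
  rw [entries_append]
  exact Set.subset_union_left

theorem mem_right [FiniteDimensional k M] (R : Γ →* M) (B C : List (Γ × Γ)) :
    alg k R C ≤ alg k R (B ++ C) := by
  apply alg_mono
  rw [entries_append]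
  exact Set.subset_union_right

/-- adding a handle whose entries are already in the algebra -/
theorem alg_append_single [FiniteDimensional k M] (R : Γ →* M) (B : List (Γ × Γ)) (p : Γ × Γ)
    (h1 : p.1 ∈ hs R (alg k R B)) (h2 : p.2 ∈ hs R (alg k R B)) :
    alg k R (B ++ [p]) = alg k R B := by
  apply le_antisymm
  · rw [alg_le, entries_append, entries_cons, entries_nil, Set.union_empty]
    rintro x (hx | rfl | hx)
    · exact entries_sub R B hx
    · exact h1
    · rw [Set.mem_singleton_iff] at hx
      rw [hx]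
      exact h2
  · exact mem_left R B [p]

theorem alg_cons_single [FiniteDimensional k M] (R : Γ →* M) (B : List (Γ × Γ)) (p : Γ × Γ)
    (h1 : p.1 ∈ hs R (alg k R B)) (h2 : p.2 ∈ hs R (alg k R B)) :
    alg k R (p :: B) = alg k R B := by
  apply le_antisymm
  · rw [alg_le, entries_cons]
    rintro x ((rfl | hx) | hx)
    · exact h1
    · rw [Set.mem_singleton_iff] at hx
      rw [hx]
      exact h2
    · exact entries_sub R B hx
  · exact mem_right R [p] B

/-- entries of the first handle -/
theorem head_mem [FiniteDimensional k M] (R : Γ →* M) (c d : Γ) (C : List (Γ × Γ)) :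
    c ∈ hs R (alg k R ((c, d) :: C)) ∧ d ∈ hs R (alg k R ((c, d) :: C)) := by
  constructor <;> apply entries_sub R <;> rw [entries_cons] <;> left <;> simp

theorem last_mem [FiniteDimensional k M] (R : Γ →* M) (a b : Γ) (B : List (Γ × Γ)) :
    a ∈ hs R (alg k R (B ++ [(a, b)])) ∧ b ∈ hs R (alg k R (B ++ [(a, b)])) := by
  constructor <;> apply entries_sub R <;> rw [entries_append, entries_cons] <;> right <;> left <;>
    simp

theorem tail_le [FiniteDimensional k M] (R : Γ →* M) (p : Γ × Γ) (C : List (Γ × Γ)) :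
    hs R (alg k R C) ≤ hs R (alg k R (p :: C)) := hs_mono R (mem_right R [p] C)

theorem init_le [FiniteDimensional k M] (R : Γ →* M) (p : Γ × Γ) (B : List (Γ × Γ)) :
    hs R (alg k R B) ≤ hs R (alg k R (B ++ [p])) := hs_mono R (mem_left R B [p])

/-! ### moving handles -/

/-- move a handle to the left; the other handles are unchanged -/
theorem move_left (D : List (Γ × Γ)) (c d : Γ) : ∃ w ∈ Subgroup.closure (entries D),
    Reach (D ++ [(c, d)]) ((w * c * w⁻¹, w * d * w⁻¹) :: D) := by
  induction D using List.reverseRecOn generalizing c d with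
  | nil => exact ⟨1, Subgroup.one_mem _, by simpa using Reach.refl [(c, d)]⟩
  | append_singleton D p ih =>
    obtain ⟨a, b⟩ := p
    obtain ⟨w, hw, h⟩ := ih (a * b * a⁻¹ * b⁻¹ * c * (a * b * a⁻¹ * b⁻¹)⁻¹)
      (a * b * a⁻¹ * b⁻¹ * d * (a * b * a⁻¹ * b⁻¹)⁻¹)
    have ha : a ∈ Subgroup.closure (entries (D ++ [(a, b)])) := by
      apply Subgroup.subset_closure
      rw [entries_append, entries_cons]
      right; left; simp
    have hb : b ∈ Subgroup.closure (entries (D ++ [(a, b)])) := by
      apply Subgroup.subset_closure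
      rw [entries_append, entries_cons]
      right; left; simp
    have hw' : w ∈ Subgroup.closure (entries (D ++ [(a, b)])) := by
      refine Subgroup.closure_mono ?_ hw
      rw [entries_append]
      exact Set.subset_union_left
    refine ⟨w * (a * b * a⁻¹ * b⁻¹), Subgroup.mul_mem _ hw' (Subgroup.mul_mem _
      (Subgroup.mul_mem _ (Subgroup.mul_mem _ ha hb) (Subgroup.inv_mem _ ha))
        (Subgroup.inv_mem _ hb)), ?_⟩
    have h1 := Reach.of_step (Step.br D [] a b c d)
    have h2 := h.context [] [(a, b)]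
    have e1 : w * (a * b * a⁻¹ * b⁻¹) * c * (w * (a * b * a⁻¹ * b⁻¹))⁻¹ =
        w * (a * b * a⁻¹ * b⁻¹ * c * (a * b * a⁻¹ * b⁻¹)⁻¹) * w⁻¹ := by group
    have e2 : w * (a * b * a⁻¹ * b⁻¹) * d * (w * (a * b * a⁻¹ * b⁻¹))⁻¹ =
        w * (a * b * a⁻¹ * b⁻¹ * d * (a * b * a⁻¹ * b⁻¹)⁻¹) * w⁻¹ := by group
    rw [e1, e2]
    simp only [List.nil_append, List.append_assoc, List.cons_append] at h1 h2 ⊢
    exact h1.trans h2

/-- move a handle to the right; the other handles are unchanged -/
theorem move_right' (D : List (Γ × Γ)) (a b : Γ) : ∃ w ∈ Subgroup.closure (entries D),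
    Reach ((a, b) :: D) (D ++ [(w * a * w⁻¹, w * b * w⁻¹)]) := by
  induction D generalizing a b with
  | nil => exact ⟨1, Subgroup.one_mem _, by simpa using Reach.refl [(a, b)]⟩
  | cons p D ih =>
    obtain ⟨c, d⟩ := p
    obtain ⟨w, hw, h⟩ := ih ((c * d * c⁻¹ * d⁻¹)⁻¹ * a * (c * d * c⁻¹ * d⁻¹))
      ((c * d * c⁻¹ * d⁻¹)⁻¹ * b * (c * d * c⁻¹ * d⁻¹))
    have hc : c ∈ Subgroup.closure (entries ((c, d) :: D)) := by
      apply Subgroup.subset_closure
      rw [entries_cons]
      left; simp
    have hd : d ∈ Subgroup.closure (entries ((c, d) :: D)) := by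
      apply Subgroup.subset_closure
      rw [entries_cons]
      left; simp
    have hw' : w ∈ Subgroup.closure (entries ((c, d) :: D)) := by
      refine Subgroup.closure_mono ?_ hw
      rw [entries_cons]
      exact Set.subset_union_right
    refine ⟨w * (c * d * c⁻¹ * d⁻¹)⁻¹, Subgroup.mul_mem _ hw' (Subgroup.inv_mem _
      (Subgroup.mul_mem _ (Subgroup.mul_mem _ (Subgroup.mul_mem _ hc hd) (Subgroup.inv_mem _ hc))
        (Subgroup.inv_mem _ hd))), ?_⟩
    have h1 := Reach.of_step (Step.br' [] D a b c d)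
    have h2 := h.context [(c, d)] []
    have e1 : w * (c * d * c⁻¹ * d⁻¹)⁻¹ * a * (w * (c * d * c⁻¹ * d⁻¹)⁻¹)⁻¹ =
        w * ((c * d * c⁻¹ * d⁻¹)⁻¹ * a * (c * d * c⁻¹ * d⁻¹)) * w⁻¹ := by group
    have e2 : w * (c * d * c⁻¹ * d⁻¹)⁻¹ * b * (w * (c * d * c⁻¹ * d⁻¹)⁻¹)⁻¹ =
        w * ((c * d * c⁻¹ * d⁻¹)⁻¹ * b * (c * d * c⁻¹ * d⁻¹)) * w⁻¹ := by group
    rw [e1, e2]
    simp only [List.nil_append, List.append_nil, List.cons_append] at h1 h2 ⊢
    exact h1.trans h2

/-- a long list contains a handle in the algebra generated by the preceding ones -/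
theorem exists_spare [FiniteDimensional k M] (R : Γ →* M) (D : List (Γ × Γ))
    (hlen : finrank k M ≤ D.length) (hpos : 1 ≤ finrank k M) :
    ∃ D₁ c d D₂, D = D₁ ++ (c, d) :: D₂ ∧ c ∈ hs R (alg k R D₁) ∧ d ∈ hs R (alg k R D₁) := by
  by_contra hcon
  push Not at hcon
  have key : ∀ (E F : List (Γ × Γ)), D = E ++ F →
      E.length + 1 ≤ finrank k (alg k R E) := by
    intro E
    induction E using List.reverseRecOn with
    | nil =>
      intro F _
      have : Nontrivial M := by
        apply Module.nontrivial_of_finrank_pos (R := k)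
        omega
      have h1 : Nontrivial (alg k R ([] : List (Γ × Γ))) := inferInstance
      have h2 : 0 < finrank k (alg k R ([] : List (Γ × Γ))) := Module.finrank_pos
      rw [List.length_nil]
      exact h2
    | append_singleton E p ih =>
      intro F hF
      obtain ⟨c, d⟩ := p
      have h1 := ih ((c, d) :: F) (by rw [hF]; simp)
      have h2 : alg k R E ≠ alg k R (E ++ [(c, d)]) := by
        intro heq
        obtain ⟨h3, h4⟩ := last_mem (k := k) R c d E
        rw [← heq] at h3 h4
        exact hcon E c d F (by rw [hF]; simp) h3 h4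
      have h3 : alg k R E < alg k R (E ++ [(c, d)]) :=
        lt_of_le_of_ne (mem_left R E [(c, d)]) h2
      have h4 : finrank k (alg k R E) < finrank k (alg k R (E ++ [(c, d)])) :=
        Submodule.finrank_lt_finrank_of_lt (s := (alg k R E).toSubmodule)
          (t := (alg k R (E ++ [(c, d)])).toSubmodule) h3
      rw [List.length_append, List.length_singleton]
      omega
  have h1 := key D [] (by simp)
  have h2 : finrank k (alg k R D) ≤ finrank k M :=
    Submodule.finrank_le (alg k R D).toSubmodule
  omega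

end Helper55.Pw
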