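import Pool.Agent.Helper55.PwPair

/-!
# Surface groups in large genus: adjacent blocks generate the same algebra
-/

set_option autoImplicit false

namespace Helper55.Pw

open Helper12.Sc Module

variable {k M Γ : Type*} [Field k] [Ring M] [Algebra k M] [Group Γ]

theorem conj_mem {H : Subgroup Γ} {w x : Γ} (hw : w ∈ H) (h : w * x * w⁻¹ ∈ H) : x ∈ H := by
  have h1 := H.mul_mem (H.mul_mem (H.inv_mem hw) h) hw
  have e : w⁻¹ * (w * x * w⁻¹) * w = x := by group
  rwa [e] at h1

theorem conj_mem' {H : Subgroup Γ} {w x : Γ} (hw : w ∈ H) (h : x ∈ H) : w * x * w⁻¹ ∈ H :=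
  H.mul_mem (H.mul_mem hw h) (H.inv_mem hw)

theorem block_left [FiniteDimensional k M] {R : Γ →* M} {B C : List (Γ × Γ)}
    (h : MaxPair k R B C) (hB : finrank k M ≤ B.length) (hC : finrank k M + 1 ≤ C.length)
    (hpos : 1 ≤ finrank k M) : alg k R C ≤ alg k R B := by
  set H := hs R (alg k R B) with hH
  have key : ∀ E₁ E₂ : List (Γ × Γ), C = E₁ ++ E₂ → entries E₁ ⊆ (H : Set Γ) := by
    intro E₁
    induction E₁ using List.reverseRecOn with
    | nil =>
      intro E₂ _
      rw [entries_nil]
      exact Set.empty_subset _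
    | append_singleton E₁ p ih =>
      intro E₂ hE
      obtain ⟨e, f⟩ := p
      have hE' : C = E₁ ++ ((e, f) :: E₂) := by rw [hE]; simp
      have h1 := ih ((e, f) :: E₂) hE'
      have hcl : Subgroup.closure (entries E₁) ≤ H := (Subgroup.closure_le _).2 h1
      -- move the handle to the left end
      obtain ⟨w, hw, hr⟩ := move_left E₁ e f
      have hr1 := hr.context [] E₂
      simp only [List.nil_append, List.append_assoc, List.cons_append] at hr1
      set e₁ := w * e * w⁻¹ with he₁
      set f₁ := w * f * w⁻¹ with hf₁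
      -- a redundant handle among the others
      obtain ⟨D₁, c, d, D₂, hD, hc, hd⟩ := exists_spare R (E₁ ++ E₂) (by
        rw [hE, List.length_append, List.length_append, List.length_singleton] at hC
        rw [List.length_append]
        omega) hpos
      obtain ⟨v, hv, hr2⟩ := move_left D₁ c d
      have hr3 := hr2.context [(e₁, f₁)] D₂
      simp only [List.append_assoc, List.cons_append, List.nil_append] at hr3
      set c₁ := v * c * v⁻¹ with hc₁
      set d₁ := v * d * v⁻¹ with hd₁
      rw [← hD] at hr3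
      have hr4 := Reach.of_step (Step.br' [] (D₁ ++ D₂) e₁ f₁ c₁ d₁)
      simp only [List.nil_append] at hr4
      set δ := c₁ * d₁ * c₁⁻¹ * d₁⁻¹ with hδ
      have hr5 : Reach C ((c₁, d₁) :: (δ⁻¹ * e₁ * δ, δ⁻¹ * f₁ * δ) :: (D₁ ++ D₂)) := by
        rw [hE']
        exact (hr1.trans hr3).trans hr4
      have hmax := h.reach (Reach.refl B) hr5
      have hv' : v ∈ hs R (alg k R (D₁ ++ D₂)) :=
        hs_mono R (mem_left R D₁ D₂) (closure_sub R D₁ hv)
      have hc1 : c₁ ∈ hs R (alg k R (D₁ ++ D₂)) := conj_mem' hv' (hs_mono R (mem_left R D₁ D₂) hc)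
      have hd1 : d₁ ∈ hs R (alg k R (D₁ ++ D₂)) := conj_mem' hv' (hs_mono R (mem_left R D₁ D₂) hd)
      obtain ⟨h2, h3⟩ := left_spare hmax hB hpos (tail_le R _ _ hc1) (tail_le R _ _ hd1)
      obtain ⟨h4, h5⟩ := left_step hmax hB hpos hc1 hd1
      have hδH : δ ∈ H := H.mul_mem (H.mul_mem (H.mul_mem h2 h3) (H.inv_mem h2)) (H.inv_mem h3)
      have h6 : e₁ ∈ H := conj_mem (H.inv_mem hδH) (by rwa [inv_inv])
      have h7 : f₁ ∈ H := conj_mem (H.inv_mem hδH) (by rwa [inv_inv])
      have h8 : e ∈ H := conj_mem (hcl hw) h6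
      have h9 : f ∈ H := conj_mem (hcl hw) h7
      rw [entries_append, entries_cons, entries_nil, Set.union_empty]
      rintro x (hx | rfl | hx)
      · exact h1 hx
      · exact h8
      · rw [Set.mem_singleton_iff] at hx
        rw [hx]
        exact h9
  exact (alg_le R C _).2 (key C [] (by simp))

theorem block_right [FiniteDimensional k M] {R : Γ →* M} {B C : List (Γ × Γ)}
    (h : MaxPair k R B C) (hB : finrank k M + 1 ≤ B.length) (hC : finrank k M ≤ C.length)
    (hpos : 1 ≤ finrank k M) : alg k R B ≤ alg k R C := by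
  set H := hs R (alg k R C) with hH
  have key : ∀ E₂ E₁ : List (Γ × Γ), B = E₁ ++ E₂ → entries E₂ ⊆ (H : Set Γ) := by
    intro E₂
    induction E₂ with
    | nil =>
      intro E₁ _
      rw [entries_nil]
      exact Set.empty_subset _
    | cons p E₂ ih =>
      intro E₁ hE
      obtain ⟨e, f⟩ := p
      have hE' : B = (E₁ ++ [(e, f)]) ++ E₂ := by rw [hE]; simp
      have h1 := ih (E₁ ++ [(e, f)]) hE'
      have hcl : Subgroup.closure (entries E₂) ≤ H := (Subgroup.closure_le _).2 h1
      obtain ⟨w, hw, hr⟩ := move_right' E₂ e f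
      have hr1 := hr.context E₁ []
      simp only [List.append_nil] at hr1
      set e₁ := w * e * w⁻¹ with he₁
      set f₁ := w * f * w⁻¹ with hf₁
      obtain ⟨D₁, a, b, D₂, hD, ha, hb⟩ := exists_spare R (E₁ ++ E₂) (by
        rw [hE, List.length_append, List.length_cons] at hB
        rw [List.length_append]
        omega) hpos
      obtain ⟨v, hv, hr2⟩ := move_right' D₂ a b
      have hr3 := hr2.context D₁ [(e₁, f₁)]
      simp only [List.append_assoc, List.cons_append, List.nil_append] at hr3
      set a₁ := v * a * v⁻¹ with ha₁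
      set b₁ := v * b * v⁻¹ with hb₁
      have hr4 := Reach.of_step (Step.br (D₁ ++ D₂) [] a₁ b₁ e₁ f₁)
      simp only [List.append_assoc] at hr4
      set δ := a₁ * b₁ * a₁⁻¹ * b₁⁻¹ with hδ
      have hr5 : Reach B ((D₁ ++ D₂) ++ [(δ * e₁ * δ⁻¹, δ * f₁ * δ⁻¹), (a₁, b₁)]) := by
        rw [hE, List.append_assoc]
        refine (hr1.trans ?_).trans hr4
        have e1 : E₁ ++ (E₂ ++ [(e₁, f₁)]) = D₁ ++ (a, b) :: (D₂ ++ [(e₁, f₁)]) := by
          rw [← List.append_assoc, hD]
          simp
        rw [e1]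
        exact hr3
      have hmax := h.reach hr5 (Reach.refl C)
      have hv' : v ∈ hs R (alg k R (D₁ ++ D₂)) :=
        hs_mono R (mem_right R D₁ D₂) (closure_sub R D₂ hv)
      have ha1 : a₁ ∈ hs R (alg k R (D₁ ++ D₂)) := conj_mem' hv' (hs_mono R (mem_left R D₁ D₂) ha)
      have hb1 : b₁ ∈ hs R (alg k R (D₁ ++ D₂)) := conj_mem' hv' (hs_mono R (mem_left R D₁ D₂) hb)
      have hmax' : MaxPair k R (((D₁ ++ D₂) ++ [(δ * e₁ * δ⁻¹, δ * f₁ * δ⁻¹)]) ++ [(a₁, b₁)]) C := by
        simpa using hmax
      obtain ⟨h2, h3⟩ := right_spare hmax' hC hpos (init_le R _ _ ha1) (init_le R _ _ hb1)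
      obtain ⟨h4, h5⟩ := right_step hmax hC hpos ha1 hb1
      have hδH : δ ∈ H := H.mul_mem (H.mul_mem (H.mul_mem h2 h3) (H.inv_mem h2)) (H.inv_mem h3)
      have h6 : e₁ ∈ H := conj_mem hδH h4
      have h7 : f₁ ∈ H := conj_mem hδH h5
      have h8 : e ∈ H := conj_mem (hcl hw) h6
      have h9 : f ∈ H := conj_mem (hcl hw) h7
      rw [entries_cons]
      rintro x ((rfl | hx) | hx)
      · exact h8
      · rw [Set.mem_singleton_iff] at hx
        rw [hx]
        exact h9
      · exact h1 hx
  exact (alg_le R B _).2 (key B [] (by simp))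

theorem block_eq [FiniteDimensional k M] {R : Γ →* M} {B C : List (Γ × Γ)}
    (h : MaxPair k R B C) (hB : finrank k M + 1 ≤ B.length) (hC : finrank k M + 1 ≤ C.length)
    (hpos : 1 ≤ finrank k M) : alg k R B = alg k R C :=
  le_antisymm (block_right h hB (by omega) hpos) (block_left h (by omega) hC hpos)

/-- the sum of the dimensions of the algebras of a list of blocks -/
noncomputable def pot (k : Type*) {M Γ : Type*} [Field k] [Ring M] [Algebra k M] [Group Γ]
    (R : Γ →* M) (Bs : List (List (Γ × Γ))) : ℕ := (Bs.map fun B => finrank k (alg k R B)).sum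

theorem pot_append (R : Γ →* M) (Us Vs : List (List (Γ × Γ))) :
    pot k R (Us ++ Vs) = pot k R Us + pot k R Vs := by
  unfold pot
  rw [List.map_append, List.sum_append]

theorem pot_cons (R : Γ →* M) (B : List (Γ × Γ)) (Vs : List (List (Γ × Γ))) :
    pot k R (B :: Vs) = finrank k (alg k R B) + pot k R Vs := by
  unfold pot
  rw [List.map_cons, List.sum_cons]

theorem pot_le [FiniteDimensional k M] (R : Γ →* M) (Bs : List (List (Γ × Γ))) :
    pot k R Bs ≤ Bs.length * finrank k M := by
  induction Bs with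
  | nil => simp [pot]
  | cons B Bs ih =>
    rw [pot_cons, List.length_cons, add_mul, one_mul, add_comm]
    exact add_le_add ih (Submodule.finrank_le (alg k R B).toSubmodule)

/-- a list of blocks can be moved to one in which all blocks generate the same algebra -/
theorem exists_equal [FiniteDimensional k M] (R : Γ →* M) (Bs : List (List (Γ × Γ)))
    (hBs : ∀ B ∈ Bs, finrank k M + 1 ≤ B.length) (hpos : 1 ≤ finrank k M) :
    ∃ Cs : List (List (Γ × Γ)), Cs.length = Bs.length ∧ Reach Bs.flatten Cs.flatten ∧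
      ∀ C ∈ Cs, alg k R C = alg k R Bs.flatten := by
  -- choose a maximum
  obtain ⟨Cs, ⟨hlen, hreach⟩, hmax⟩ : ∃ Cs : List (List (Γ × Γ)),
      (Cs.map List.length = Bs.map List.length ∧ Reach Bs.flatten Cs.flatten) ∧
      ∀ Ds : List (List (Γ × Γ)), Ds.map List.length = Bs.map List.length ∧
        Reach Bs.flatten Ds.flatten → pot k R Ds ≤ pot k R Cs := by
    have hbd : ∃ N, ∀ Ds : List (List (Γ × Γ)), (Ds.map List.length = Bs.map List.length ∧
        Reach Bs.flatten Ds.flatten) → pot k R Ds ≤ N := by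
      refine ⟨Bs.length * finrank k M, fun Ds hDs => ?_⟩
      have h1 : Ds.length = Bs.length := by
        have := congrArg List.length hDs.1
        simpa using this
      rw [← h1]
      exact pot_le R Ds
    obtain ⟨N, hN⟩ := hbd
    classical
    have hex : ∃ m, ∃ Ds : List (List (Γ × Γ)), (Ds.map List.length = Bs.map List.length ∧
        Reach Bs.flatten Ds.flatten) ∧ N - pot k R Ds = m := ⟨_, Bs, ⟨rfl, Reach.refl _⟩, rfl⟩
    obtain ⟨Cs, hCs, hm⟩ := Nat.find_spec hex
    refine ⟨Cs, hCs, fun Ds hDs => ?_⟩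
    have h1 := Nat.find_min' hex ⟨Ds, hDs, rfl⟩
    rw [← hm] at h1
    have h2 := hN Ds hDs
    have h3 := hN Cs hCs
    omega
  have hlenCs : Cs.length = Bs.length := by
    have := congrArg List.length hlen
    simpa using this
  have hbig : ∀ C ∈ Cs, finrank k M + 1 ≤ C.length := by
    intro C hC
    have h1 : C.length ∈ Cs.map List.length := List.mem_map_of_mem hC
    rw [hlen] at h1
    obtain ⟨B, hB, hBC⟩ := List.mem_map.1 h1
    rw [← hBC]
    exact hBs B hB
  -- adjacent blocks
  have hadj : ∀ (Us Vs : List (List (Γ × Γ))) (B C : List (Γ × Γ)), Cs = Us ++ B :: C :: Vs →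
      alg k R B = alg k R C := by
    intro Us Vs B C hCs
    refine block_eq ?_ (hbig B (by rw [hCs]; simp)) (hbig C (by rw [hCs]; simp)) hpos
    intro B' C' hB' hC' hr
    have h1 := hmax (Us ++ B' :: C' :: Vs) ⟨?_, ?_⟩
    · rw [hCs, pot_append, pot_append, pot_cons, pot_cons, pot_cons, pot_cons] at h1
      omega
    · rw [← hlen, hCs]
      simp [hB', hC']
    · refine hreach.trans ?_
      rw [hCs]
      have h2 := hr.context Us.flatten Vs.flatten
      simpa using h2
  have hall : ∀ (Vs : List (List (Γ × Γ))) (B : List (Γ × Γ)) (Us : List (List (Γ × Γ))),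
      Cs = Us ++ B :: Vs → ∀ C ∈ Vs, alg k R C = alg k R B := by
    intro Vs
    induction Vs with
    | nil =>
      intro B Us _ C hC
      exact absurd hC (List.not_mem_nil)
    | cons D Vs ih =>
      intro B Us hCs C hC
      have h1 := hadj Us Vs B D hCs
      rcases List.mem_cons.1 hC with rfl | hC
      · exact h1.symm
      · rw [h1]
        exact ih D (Us ++ [B]) (by rw [hCs]; simp) C hC
  refine ⟨Cs, hlenCs, hreach, ?_⟩
  rw [← alg_reach R hreach]
  rcases Cs with _ | ⟨B, Vs⟩
  · intro C hC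
    exact absurd hC (List.not_mem_nil)
  · have h1 : ∀ C ∈ B :: Vs, alg k R C = alg k R B := by
      intro C hC
      rcases List.mem_cons.1 hC with rfl | hC
      · rfl
      · exact hall Vs B [] (by simp) C hC
    have h2 : alg k R (B :: Vs).flatten = alg k R B := by
      apply le_antisymm
      · rw [alg_le]
        rintro x ⟨p, hp, hx⟩
        obtain ⟨C, hC, hpC⟩ := List.mem_flatten.1 hp
        rw [← h1 C hC]
        exact entries_sub R C ⟨p, hpC, hx⟩
      · apply alg_mono
        rintro x ⟨p, hp, hx⟩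
        exact ⟨p, List.mem_flatten.2 ⟨B, by simp, hp⟩, hx⟩
    intro C hC
    rw [h2]
    exact h1 C hC

end Helper55.Pw
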