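import Pool.Agent.Helper55.PwBlock

/-!
# Surface groups in large genus: linear relations on simple loops hold everywhere
-/

set_option autoImplicit false

namespace Helper55.Pw

open Helper12.Sc Module

variable {k M Γ : Type*} [Field k] [Ring M] [Algebra k M] [Group Γ]

/-- the span of the images of a set -/
def spn (k : Type*) {M Γ : Type*} [Field k] [Ring M] [Algebra k M] [Group Γ] (R : Γ →* M)
    (P : Set Γ) : Submodule k M := Submodule.span k (R '' P)

theorem spn_mono (R : Γ →* M) {P Q : Set Γ} (h : P ⊆ Q) : spn k R P ≤ spn k R Q :=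
  Submodule.span_mono (Set.image_mono h)

theorem chunks (s : ℕ) {Γ : Type*} (m : ℕ) (L : List Γ) (h : (m + 1) * s ≤ L.length) :
    ∃ Bs : List (List Γ), Bs.length = m + 1 ∧ (∀ B ∈ Bs, s ≤ B.length) ∧ Bs.flatten = L := by
  induction m generalizing L with
  | zero =>
    refine ⟨[L], rfl, ?_, by simp⟩
    intro B hB
    rw [List.mem_singleton] at hB
    rw [hB]
    simpa using h
  | succ m ih =>
    have h1 : (m + 1 + 1) * s = (m + 1) * s + s := by ring
    obtain ⟨Bs, hlen, hs, hfl⟩ := ih (L.drop s) (by rw [List.length_drop]; omega)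
    refine ⟨L.take s :: Bs, by simp [hlen], ?_, by rw [List.flatten_cons, hfl, List.take_append_drop]⟩
    intro B hB
    rcases List.mem_cons.1 hB with rfl | hB
    · rw [List.length_take]
      omega
    · exact hs B hB

/-- the product sets stabilise -/
theorem exists_stable_block [FiniteDimensional k M] (R : Γ →* M) (Cs : List (List (Γ × Γ)))
    (hlen : finrank k M ≤ Cs.length) (hpos : 1 ≤ finrank k M) :
    ∃ As C Ds, Cs = As ++ C :: Ds ∧
      spn k R (prods ((As ++ [C]).map yset)) = spn k R (prods (As.map yset)) := by
  by_contra hcon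
  push Not at hcon
  have key : ∀ As Ds : List (List (Γ × Γ)), Cs = As ++ Ds →
      As.length + 1 ≤ finrank k (spn k R (prods (As.map yset))) := by
    intro As
    induction As using List.reverseRecOn with
    | nil =>
      intro Ds _
      have hnt : Nontrivial M := by
        apply Module.nontrivial_of_finrank_pos (R := k)
        omega
      have h1 : (1 : M) ∈ spn k R (prods (([] : List (List (Γ × Γ))).map yset)) :=
        Submodule.subset_span ⟨1, one_mem_prods _, map_one R⟩
      have h2 : spn k R (prods (([] : List (List (Γ × Γ))).map yset)) ≠ ⊥ := by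
        intro h
        rw [h, Submodule.mem_bot] at h1
        exact one_ne_zero h1
      have h3 := Submodule.one_le_finrank_iff.2 h2
      simpa using h3
    | append_singleton As C ih =>
      intro Ds hCs
      have h1 := ih (C :: Ds) (by rw [hCs]; simp)
      have h2 := hcon As C Ds (by rw [hCs]; simp)
      have h3 : spn k R (prods (As.map yset)) ≤ spn k R (prods ((As ++ [C]).map yset)) := by
        apply spn_mono
        rw [List.map_append]
        exact prods_subset_append _ _
      have h4 : spn k R (prods (As.map yset)) < spn k R (prods ((As ++ [C]).map yset)) :=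
        lt_of_le_of_ne h3 (Ne.symm h2)
      have h5 := Submodule.finrank_lt_finrank_of_lt h4
      rw [List.length_append, List.length_singleton]
      omega
  have h1 := key Cs [] (by simp)
  have h2 := Submodule.finrank_le (spn k R (prods (Cs.map yset)))
  omega

/-- the elements which map a subspace to itself by right multiplication -/
def stab (S : Submodule k M) : Subalgebra k M where
  carrier := {m | ∀ s ∈ S, s * m ∈ S}
  mul_mem' := by
    intro a b ha hb s hs
    rw [← mul_assoc]
    exact hb _ (ha s hs)
  one_mem' := by
    intro s hs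
    rwa [mul_one]
  add_mem' := by
    intro a b ha hb s hs
    rw [mul_add]
    exact S.add_mem (ha s hs) (hb s hs)
  zero_mem' := by
    intro s _
    rw [mul_zero]
    exact S.zero_mem
  algebraMap_mem' := by
    intro r s hs
    rw [Algebra.algebraMap_eq_smul_one, mul_smul_comm, mul_one]
    exact S.smul_mem r hs

theorem mem_stab (S : Submodule k M) (m : M) : m ∈ stab S ↔ ∀ s ∈ S, s * m ∈ S := Iff.rfl

/-- Linear relations on simple loops hold everywhere. -/
theorem relation [FiniteDimensional k M] {W : Type*} [AddCommGroup W] [Module k W]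
    (R : Γ →* M) (L : List (Γ × Γ))
    (hlen : finrank k M * (finrank k M + 1) ≤ L.length) (T : M →ₗ[k] W) (h1 : T 1 = 0)
    (hT : ∀ x y : Γ, Ext L [(x, y)] → T (R x) = 0) :
    ∀ x ∈ Subgroup.closure (entries L), T (R x) = 0 := by
  rcases Nat.eq_zero_or_pos (finrank k M) with h0 | hpos
  · have hsub : Subsingleton M := Module.finrank_zero_iff.1 h0
    intro x _
    rw [Subsingleton.elim (R x) 0, map_zero]
  obtain ⟨m, hm⟩ : ∃ m, finrank k M = m + 1 := ⟨finrank k M - 1, by omega⟩
  obtain ⟨Bs, hBlen, hBs, hfl⟩ := chunks (finrank k M + 1) m L (by rw [← hm]; exact hlen)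
  obtain ⟨Cs, hClen, hreach, hCs⟩ := exists_equal R Bs hBs hpos
  rw [hfl] at hreach hCs
  obtain ⟨As, C, Ds, hdec, hst⟩ := exists_stable_block R Cs (by omega) hpos
  set S := spn k R (prods (As.map yset)) with hS
  have hone : (1 : M) ∈ S := Submodule.subset_span ⟨1, one_mem_prods _, map_one R⟩
  -- the first block that does not enlarge the span
  have hy : yset C ⊆ (hs R (stab S) : Set Γ) := by
    intro y hy s hsS
    show s * R y ∈ S
    rw [← hst]
    refine Submodule.span_induction (p := fun s _ => s * R y ∈ spn k R
      (prods ((As ++ [C]).map yset))) ?_ ?_ ?_ ?_ hsS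
    · rintro _ ⟨g, hg, rfl⟩
      rw [← map_mul]
      refine Submodule.subset_span ⟨g * y, ?_, rfl⟩
      rw [List.map_append, prods_append]
      refine ⟨g, hg, y, ?_, rfl⟩
      rw [List.map_singleton, prods_singleton]
      exact Set.mem_insert_of_mem _ hy
    · rw [zero_mul]
      exact Submodule.zero_mem _
    · intro a b _ _ ha hb
      rw [add_mul]
      exact Submodule.add_mem _ ha hb
    · intro r a _ ha
      rw [smul_mul_assoc]
      exact Submodule.smul_mem _ r ha
  have hent : entries C ⊆ (hs R (stab S) : Set Γ) := by
    rintro x ⟨p, hp, rfl | rfl⟩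
    · exact hy ⟨p, hp, Or.inl rfl⟩
    · have := hy ⟨p, hp, Or.inr rfl⟩
      exact (inv_mem_iff (H := hs R (stab S))).1 this
  have halg : alg k R L ≤ stab S := by
    rw [← hCs C (by rw [hdec]; simp), alg_le]
    exact hent
  have hTS : ∀ s ∈ S, T s = 0 := by
    intro s hs
    refine Submodule.span_induction (p := fun s _ => T s = 0) ?_ ?_ ?_ ?_ hs
    · rintro _ ⟨g, hg, rfl⟩
      rcases Ext.prods As g hg with rfl | ⟨y, hy⟩
      · rw [map_one, h1]
      · refine hT g y ?_
        have h2 : Ext L Cs.flatten := Ext.of_reach hreach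
        have h3 : Cs.flatten = As.flatten ++ (C :: Ds).flatten := by rw [hdec, List.flatten_append]
        rw [h3] at h2
        exact (h2.trans (Ext.drop_right _ _)).trans hy
    · exact map_zero T
    · intro a b _ _ ha hb
      rw [map_add, ha, hb, add_zero]
    · intro r a _ ha
      rw [map_smul, ha, smul_zero]
  intro x hx
  have h2 : R x ∈ alg k R L := closure_sub R L hx
  have h3 := (mem_stab S (R x)).1 (halg h2) 1 hone
  rw [one_mul] at h3
  exact hTS _ h3

end Helper55.Pw
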