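import Pool.Agent.Helper55.PwTrace
import Pool.Agent.Helper12.ScGreedy

/-!
# Surface groups in large genus: finiteness of the mapping class group orbit of a character
-/

set_option autoImplicit false

namespace Helper55.Pw

open Helper12.Sc Module SurfaceGroup MvPolynomial

/-! ### traces as polynomials -/

/-- matrix entries of the generators and of their inverses, for two representations -/
abbrev Var (r g : ℕ) : Type := Bool × ((Fin g × Bool) × Bool) × Fin r × Fin r

/-- the generic matrix of a letter -/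
noncomputable def gen (r g : ℕ) (s : Bool) (l : (Fin g × Bool) × Bool) :
    Matrix (Fin r) (Fin r) (MvPolynomial (Var r g) ℂ) := Matrix.of fun i j => X (s, l, i, j)

/-- the trace of a word as a polynomial -/
noncomputable def trw (r g : ℕ) (s : Bool) (w : List ((Fin g × Bool) × Bool)) :
    MvPolynomial (Var r g) ℂ := ((w.map (gen r g s)).prod).trace

/-- the value of a letter under a representation -/
noncomputable def letter {r g : ℕ} (ρ : SurfaceGroup g →* GL (Fin r) ℂ)
    (l : (Fin g × Bool) × Bool) : GL (Fin r) ℂ :=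
  if l.2 then ρ (PresentedGroup.of l.1) else (ρ (PresentedGroup.of l.1))⁻¹

/-- the point of a pair of representations -/
noncomputable def pt {r g : ℕ} (ρ₁ ρ₂ : SurfaceGroup g →* GL (Fin r) ℂ) : Var r g → ℂ :=
  fun v => ((letter (if v.1 then ρ₁ else ρ₂) v.2.1 : GL (Fin r) ℂ) :
    Matrix (Fin r) (Fin r) ℂ) v.2.2.1 v.2.2.2

theorem letter_prod {r g : ℕ} (ρ : SurfaceGroup g →* GL (Fin r) ℂ)
    (w : List ((Fin g × Bool) × Bool)) :
    (w.map (letter ρ)).prod = ρ (PresentedGroup.mk _ (FreeGroup.mk w)) := by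
  induction w with
  | nil =>
    rw [List.map_nil, List.prod_nil]
    have : (FreeGroup.mk ([] : List ((Fin g × Bool) × Bool))) = 1 := rfl
    rw [this, map_one, map_one]
  | cons l w ih =>
    rw [List.map_cons, List.prod_cons, ih]
    have h1 : (FreeGroup.mk (l :: w)) = FreeGroup.mk [l] * FreeGroup.mk w := by
      rw [FreeGroup.mul_mk]
      rfl
    rw [h1, map_mul, map_mul]
    congr 1
    obtain ⟨q, b⟩ := l
    cases b
    · have h2 : FreeGroup.mk [(q, false)] = (FreeGroup.of q)⁻¹ := by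
        unfold FreeGroup.of
        rw [FreeGroup.inv_mk]
        rfl
      rw [h2, map_inv, map_inv]
      rfl
    · rfl

theorem eval_trw {r g : ℕ} (ρ₁ ρ₂ : SurfaceGroup g →* GL (Fin r) ℂ) (s : Bool)
    (w : List ((Fin g × Bool) × Bool)) :
    eval (pt ρ₁ ρ₂) (trw r g s w) =
      (((if s then ρ₁ else ρ₂) (PresentedGroup.mk _ (FreeGroup.mk w)) : GL (Fin r) ℂ) :
        Matrix (Fin r) (Fin r) ℂ).trace := by
  unfold trw
  rw [← letter_prod]
  have h1 : ∀ w : List ((Fin g × Bool) × Bool),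
      ((eval (pt ρ₁ ρ₂)).mapMatrix ((w.map (gen r g s)).prod)) =
      (((w.map (letter (if s then ρ₁ else ρ₂))).prod : GL (Fin r) ℂ) :
        Matrix (Fin r) (Fin r) ℂ) := by
    intro w
    induction w with
    | nil =>
      rw [List.map_nil, List.map_nil, List.prod_nil, List.prod_nil, map_one, Units.val_one]
    | cons l w ih =>
      rw [List.map_cons, List.map_cons, List.prod_cons, List.prod_cons, map_mul, ih,
        Units.val_mul]
      congr 1
      ext i j
      simp only [gen, RingHom.mapMatrix_apply, Matrix.map_apply, Matrix.of_apply, eval_X, pt]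
  rw [← h1 w, RingHom.mapMatrix_apply]
  exact AddMonoidHom.map_trace (eval (pt ρ₁ ρ₂)) _

/-- a word of an element -/
noncomputable def wd {g : ℕ} (x : SurfaceGroup g) : List ((Fin g × Bool) × Bool) :=
  ((PresentedGroup.mk_surjective {surfaceRelator g} x).choose).toWord

theorem wd_spec {g : ℕ} (x : SurfaceGroup g) :
    PresentedGroup.mk {surfaceRelator g} (FreeGroup.mk (wd x)) = x := by
  unfold wd
  rw [FreeGroup.mk_toWord]
  exact (PresentedGroup.mk_surjective {surfaceRelator g} x).choose_spec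

/-- Finitely many simple curves determine the character. -/
theorem exists_finset (r g : ℕ) (hg : 4 * r ^ 4 + 2 * r ^ 2 ≤ g) :
    ∃ s : Finset (SurfaceGroup g), (∀ x ∈ s, IsNonseparatingSimple x) ∧
      ∀ ρ₁ ρ₂ : SurfaceGroup g →* GL (Fin r) ℂ,
        (∀ x ∈ s, (ρ₁ x : Matrix (Fin r) (Fin r) ℂ).trace =
          (ρ₂ x : Matrix (Fin r) (Fin r) ℂ).trace) →
        ∀ x, (ρ₁ x : Matrix (Fin r) (Fin r) ℂ).trace =
          (ρ₂ x : Matrix (Fin r) (Fin r) ℂ).trace := by
  classical
  let f : SurfaceGroup g → MvPolynomial (Var r g) ℂ :=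
    fun x => trw r g true (wd x) - trw r g false (wd x)
  have hf : ∀ (ρ₁ ρ₂ : SurfaceGroup g →* GL (Fin r) ℂ) (x : SurfaceGroup g),
      eval (pt ρ₁ ρ₂) (f x) = (ρ₁ x : Matrix (Fin r) (Fin r) ℂ).trace -
        (ρ₂ x : Matrix (Fin r) (Fin r) ℂ).trace := by
    intro ρ₁ ρ₂ x
    simp only [f]
    rw [map_sub, eval_trw, eval_trw, wd_spec]
    rfl
  let S : Set (SurfaceGroup g) := {x | IsNonseparatingSimple x}
  obtain ⟨t, ht, hspan⟩ := Submodule.fg_span_iff_fg_span_finset_subset (f '' S) |>.1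
    (IsNoetherian.noetherian (Ideal.span (f '' S)))
  obtain ⟨s, hs, hst⟩ := Finset.subset_set_image_iff.1 ht
  refine ⟨s, fun x hx => hs hx, fun ρ₁ ρ₂ h => ?_⟩
  apply trace_eq r g hg
  intro x hx
  have h1 : f x ∈ Submodule.span (MvPolynomial (Var r g) ℂ) (t : Set _) := by
    rw [← hspan]
    exact Submodule.subset_span ⟨x, hx, rfl⟩
  have h2 : Submodule.span (MvPolynomial (Var r g) ℂ) (t : Set (MvPolynomial (Var r g) ℂ)) ≤
      RingHom.ker (eval (pt ρ₁ ρ₂)) := by
    rw [Submodule.span_le]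
    intro p hp
    rw [← hst, Finset.coe_image] at hp
    obtain ⟨y, hy, rfl⟩ := hp
    show f y ∈ RingHom.ker (eval (pt ρ₁ ρ₂))
    rw [RingHom.mem_ker, hf, h y hy, sub_self]
  have h3 := h2 h1
  rw [RingHom.mem_ker, hf] at h3
  exact sub_eq_zero.1 h3

/-! ### finitely many traces -/

theorem finite_traces (r N : ℕ) (hN : 0 < N) :
    {z : ℂ | ∃ u : GL (Fin r) ℂ, u ^ N = 1 ∧ (u : Matrix (Fin r) (Fin r) ℂ).trace = z}.Finite := by
  classical
  let Z : Finset ℂ := (Polynomial.nthRoots N (1 : ℂ)).toFinset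
  have hfin : (Set.range fun F : Fin r → Z => ∑ i, (F i : ℂ)).Finite := Set.finite_range _
  refine hfin.subset ?_
  rintro z ⟨u, hu, rfl⟩
  set U : Matrix (Fin r) (Fin r) ℂ := (u : Matrix (Fin r) (Fin r) ℂ) with hU
  have hUN : U ^ N = 1 := by
    have := congrArg Units.val hu
    rwa [Units.val_pow_eq_pow_val, Units.val_one] at this
  have hcard : U.charpoly.roots.card = r := by
    have h1 := (IsAlgClosed.splits U.charpoly).natDegree_eq_card_roots
    rw [Matrix.charpoly_natDegree_eq_dim, Fintype.card_fin] at h1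
    exact h1.symm
  have htr : U.trace = U.charpoly.roots.sum :=
    Matrix.trace_eq_sum_roots_charpoly U
  have hroot : ∀ c ∈ U.charpoly.roots, c ∈ Z := by
    intro c hc
    have h1 := root_pow U N hUN c (Polynomial.isRoot_of_mem_roots hc)
    simp only [Z]
    rw [Multiset.mem_toFinset, Polynomial.mem_nthRoots hN]
    exact h1
  obtain ⟨l, hl⟩ := Quot.exists_rep U.charpoly.roots
  have hl' : (l : Multiset ℂ) = U.charpoly.roots := hl
  have hlen : l.length = r := by
    rw [← hcard, ← hl', Multiset.coe_card]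
  subst hlen
  refine ⟨fun i => ⟨l.get i, hroot _ (by rw [← hl']; exact List.get_mem l i)⟩, ?_⟩
  simp only
  rw [htr, ← hl', Multiset.sum_coe, ← List.sum_ofFn, List.ofFn_get]

/-- Representations of rank `r` of the fundamental group of a closed surface of genus
`g ≥ 4 r ^ 4 + 2 r ^ 2` in which all non-separating simple closed curves have finite order: the
character has a finite orbit under automorphisms of the surface group. -/
theorem finite_orbit (r g : ℕ) (hg : 4 * r ^ 4 + 2 * r ^ 2 ≤ g)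
    (ρ : SurfaceGroup g →* GL (Fin r) ℂ)
    (hρ : ∀ x : SurfaceGroup g, IsNonseparatingSimple x → IsOfFinOrder (ρ x)) :
    (Set.range fun (φ : SurfaceGroup g ≃* SurfaceGroup g) (x : SurfaceGroup g) =>
      (ρ (φ x) : Matrix (Fin r) (Fin r) ℂ).trace).Finite := by
  classical
  obtain ⟨s, hs, hdet⟩ := exists_finset r g hg
  have hfg : (MonoidHom.range ρ).FG := by
    rw [Subgroup.fg_iff]
    refine ⟨entries ((std g).map (Prod.map ρ ρ)), ?_, entries_finite _⟩
    rw [MonoidHom.range_eq_map, ← closure_std g, MonoidHom.map_closure]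
    congr 1
    ext z
    constructor
    · rintro ⟨p, hp, hz⟩
      obtain ⟨q, hq, rfl⟩ := List.mem_map.1 hp
      rcases hz with rfl | rfl
      · exact ⟨q.1, ⟨q, hq, Or.inl rfl⟩, rfl⟩
      · exact ⟨q.2, ⟨q, hq, Or.inr rfl⟩, rfl⟩
    · rintro ⟨z, ⟨q, hq, hz⟩, rfl⟩
      refine ⟨Prod.map ρ ρ q, List.mem_map_of_mem hq, ?_⟩
      rcases hz with rfl | rfl
      · exact Or.inl rfl
      · exact Or.inr rfl
  obtain ⟨N, hN, hexp⟩ := torsion_exponent (MonoidHom.range ρ) hfg
  have hT := finite_traces r N hN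
  set T : Set ℂ := {z : ℂ | ∃ u : GL (Fin r) ℂ, u ^ N = 1 ∧
    (u : Matrix (Fin r) (Fin r) ℂ).trace = z} with hTdef
  -- restrict to the finite set of curves
  have hfin : (Set.univ.pi fun _ : s => T).Finite := Set.Finite.pi fun _ => hT
  refine Set.Finite.of_finite_image (f := fun (χ : SurfaceGroup g → ℂ) (x : s) => χ x)
    (hfin.subset ?_) ?_
  · rintro _ ⟨_, ⟨φ, rfl⟩, rfl⟩ x _
    have h1 : IsNonseparatingSimple (φ (x : SurfaceGroup g)) := by
      obtain ⟨ψ, i, hψ⟩ := hs x x.2
      exact ⟨ψ.trans φ, i, by rw [hψ]; rfl⟩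
    exact ⟨ρ (φ x), hexp _ ⟨_, rfl⟩ (hρ _ h1), rfl⟩
  · rintro _ ⟨φ, rfl⟩ _ ⟨ψ, rfl⟩ h
    funext x
    have h1 := hdet (ρ.comp φ.toMonoidHom) (ρ.comp ψ.toMonoidHom) (fun y hy =>
      congrFun h ⟨y, hy⟩) x
    exact h1

end Helper55.Pw
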