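import Pool.Agent.Helper55.PwAlg

/-!
# Surface groups in large genus: two adjacent blocks of handles

If the sum of the dimensions of the algebras generated by two adjacent blocks is maximal among all
lists reachable by elementary moves then the two algebras are equal.
-/

set_option autoImplicit false

namespace Helper55.Pw

open Helper12.Sc Module

variable {k M Γ : Type*} [Field k] [Ring M] [Algebra k M] [Group Γ]

/-- two adjacent blocks with maximal sum of dimensions -/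
def MaxPair (k : Type*) {M Γ : Type*} [Field k] [Ring M] [Algebra k M] [Group Γ] (R : Γ →* M)
    (B C : List (Γ × Γ)) : Prop :=
  ∀ B' C' : List (Γ × Γ), B'.length = B.length → C'.length = C.length →
    Reach (B ++ C) (B' ++ C') →
    finrank k (alg k R B') + finrank k (alg k R C') ≤
      finrank k (alg k R B) + finrank k (alg k R C)

theorem reach_length {L L' : List (Γ × Γ)} (h : Reach L L') : L'.length = L.length := by
  induction h with
  | refl => rfl
  | tail _ hs ih => rw [hs.length_eq, ih]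

theorem MaxPair.reach [FiniteDimensional k M] {R : Γ →* M} {B C B' C' : List (Γ × Γ)}
    (h : MaxPair k R B C) (hB : Reach B B') (hC : Reach C C') : MaxPair k R B' C' := by
  intro B'' C'' h1 h2 h3
  rw [alg_reach R hB, alg_reach R hC]
  refine h B'' C'' (h1.trans (reach_length hB)) (h2.trans (reach_length hC)) ?_
  have h4 := hB.context [] C
  have h5 := hC.context B' []
  simp only [List.nil_append, List.append_nil] at h4 h5
  exact (h4.trans h5).trans h3

theorem eq_of_le_finrank [FiniteDimensional k M] {S S' : Subalgebra k M} (h : S ≤ S')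
    (hd : finrank k S' ≤ finrank k S) : S = S' := by
  have h1 : S.toSubmodule = S'.toSubmodule :=
    Submodule.eq_of_le_of_finrank_le h hd
  exact Subalgebra.toSubmodule_injective h1

theorem finrank_mono' [FiniteDimensional k M] {S S' : Subalgebra k M} (h : S ≤ S') :
    finrank k S ≤ finrank k S' :=
  Submodule.finrank_mono (s := S.toSubmodule) (t := S'.toSubmodule) h

/-- the slide of a redundant handle along a redundant handle -/
theorem pair_one [FiniteDimensional k M] {R : Γ →* M} {B C : List (Γ × Γ)} {a b c d : Γ}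
    (h : MaxPair k R (B ++ [(a, b)]) ((c, d) :: C))
    (ha : a ∈ hs R (alg k R B)) (hb : b ∈ hs R (alg k R B))
    (hc : c ∈ hs R (alg k R C)) (hd : d ∈ hs R (alg k R C)) :
    c * d * c⁻¹ ∈ hs R (alg k R B) ∧ b * a⁻¹ * b⁻¹ ∈ hs R (alg k R C) := by
  have hB : alg k R (B ++ [(a, b)]) = alg k R B := alg_append_single R B (a, b) ha hb
  have hC : alg k R ((c, d) :: C) = alg k R C := alg_cons_single R C (c, d) hc hd
  set B' := B ++ [(a, b * a⁻¹ * b⁻¹ * c * d * c⁻¹ * b)] with hB'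
  set C' := (b * a⁻¹ * b⁻¹ * c, d) :: C with hC'
  have h1 : alg k R B ≤ alg k R B' := mem_left R B _
  have h2 : alg k R C ≤ alg k R C' := mem_right R [_] C
  have h3 := h B' C' (by simp [hB']) (by simp [hC']) (by
    have := Reach.of_step (Step.sl B C a b c d)
    simpa [hB', hC'] using this)
  rw [hB, hC] at h3
  have h4 := finrank_mono' h1
  have h5 := finrank_mono' h2
  have e1 : alg k R B = alg k R B' := eq_of_le_finrank h1 (by omega)
  have e2 : alg k R C = alg k R C' := eq_of_le_finrank h2 (by omega)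
  constructor
  · have h6 := (last_mem (k := k) R a (b * a⁻¹ * b⁻¹ * c * d * c⁻¹ * b) B).2
    rw [← hB', ← e1] at h6
    have h7 := (hs R (alg k R B)).mul_mem ((hs R (alg k R B)).mul_mem
      ((hs R (alg k R B)).mul_mem ((hs R (alg k R B)).mul_mem hb ha)
        ((hs R (alg k R B)).inv_mem hb)) h6) ((hs R (alg k R B)).inv_mem hb)
    have e3 : b * a * b⁻¹ * (b * a⁻¹ * b⁻¹ * c * d * c⁻¹ * b) * b⁻¹ = c * d * c⁻¹ := by group
    rwa [e3] at h7
  · have h6 := (head_mem (k := k) R (b * a⁻¹ * b⁻¹ * c) d C).1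
    rw [← hC', ← e2] at h6
    have h7 := (hs R (alg k R C)).mul_mem h6 ((hs R (alg k R C)).inv_mem hc)
    have e3 : b * a⁻¹ * b⁻¹ * c * c⁻¹ = b * a⁻¹ * b⁻¹ := by group
    rwa [e3] at h7

theorem pair_two [FiniteDimensional k M] {R : Γ →* M} {B C : List (Γ × Γ)} {a b c d : Γ}
    (h : MaxPair k R (B ++ [(a, b)]) ((c, d) :: C))
    (ha : a ∈ hs R (alg k R B)) (hb : b ∈ hs R (alg k R B))
    (hc : c ∈ hs R (alg k R C)) (hd : d ∈ hs R (alg k R C)) :
    (c ∈ hs R (alg k R B) ∧ d ∈ hs R (alg k R B)) ∧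
      a ∈ hs R (alg k R C) ∧ b ∈ hs R (alg k R C) := by
  set H := hs R (alg k R B) with hH
  set K := hs R (alg k R C) with hK
  obtain ⟨h1, h2⟩ := pair_one h ha hb hc hd
  constructor
  · have h3 : MaxPair k R (B ++ [(a, b)]) ((c * d * c⁻¹, c⁻¹) :: C) :=
      h.reach (Reach.refl _) (by simpa using Reach.of_step (Step.rot' [] C c d))
    obtain ⟨h4, -⟩ := pair_one h3 ha hb
      (K.mul_mem (K.mul_mem hc hd) (K.inv_mem hc)) (K.inv_mem hc)
    have h5 := H.mul_mem (H.mul_mem (H.inv_mem h1) h4) h1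
    have e1 : (c * d * c⁻¹)⁻¹ * (c * d * c⁻¹ * c⁻¹ * (c * d * c⁻¹)⁻¹) * (c * d * c⁻¹) = c⁻¹ := by
      group
    have h6 : c ∈ H := by
      rw [e1] at h5
      exact (inv_mem_iff (H := H)).1 h5
    refine ⟨h6, ?_⟩
    have h7 := H.mul_mem (H.mul_mem (H.inv_mem h6) h1) h6
    have e2 : c⁻¹ * (c * d * c⁻¹) * c = d := by group
    rwa [e2] at h7
  · have h3 : MaxPair k R (B ++ [(b⁻¹, b * a * b⁻¹)]) ((c, d) :: C) :=
      h.reach (by simpa using Reach.of_step (Step.rot B [] a b)) (Reach.refl _)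
    obtain ⟨-, h4⟩ := pair_one h3 (H.inv_mem hb)
      (H.mul_mem (H.mul_mem hb ha) (H.inv_mem hb)) hc hd
    have h5 := K.mul_mem (K.mul_mem h2 h4) (K.inv_mem h2)
    have e1 : b * a⁻¹ * b⁻¹ * (b * a * b⁻¹ * b⁻¹⁻¹ * (b * a * b⁻¹)⁻¹) * (b * a⁻¹ * b⁻¹)⁻¹ = b := by
      group
    have h6 : b ∈ K := by rwa [e1] at h5
    refine ⟨?_, h6⟩
    have h7 := K.inv_mem (K.mul_mem (K.mul_mem (K.inv_mem h6) h2) h6)
    have e2 : (b⁻¹ * (b * a⁻¹ * b⁻¹) * b)⁻¹ = a := by group
    rwa [e2] at h7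

/-- a long block has a redundant handle at its right end -/
theorem spare_right [FiniteDimensional k M] (R : Γ →* M) (B : List (Γ × Γ))
    (hlen : finrank k M ≤ B.length) (hpos : 1 ≤ finrank k M) :
    ∃ B₁ a b, Reach B (B₁ ++ [(a, b)]) ∧ a ∈ hs R (alg k R B₁) ∧ b ∈ hs R (alg k R B₁) := by
  obtain ⟨D₁, c, d, D₂, rfl, hc, hd⟩ := exists_spare R B hlen hpos
  obtain ⟨w, hw, h⟩ := move_right' D₂ c d
  have h1 := h.context D₁ []
  have hw' : w ∈ hs R (alg k R (D₁ ++ D₂)) :=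
    hs_mono R (mem_right R D₁ D₂) (closure_sub R D₂ hw)
  have hc' := hs_mono R (mem_left R D₁ D₂) hc
  have hd' := hs_mono R (mem_left R D₁ D₂) hd
  refine ⟨D₁ ++ D₂, w * c * w⁻¹, w * d * w⁻¹, by simpa using h1, ?_, ?_⟩
  · exact Subgroup.mul_mem _ (Subgroup.mul_mem _ hw' hc') (Subgroup.inv_mem _ hw')
  · exact Subgroup.mul_mem _ (Subgroup.mul_mem _ hw' hd') (Subgroup.inv_mem _ hw')

/-- a long block has a redundant handle at its left end -/
theorem spare_left [FiniteDimensional k M] (R : Γ →* M) (C : List (Γ × Γ))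
    (hlen : finrank k M ≤ C.length) (hpos : 1 ≤ finrank k M) :
    ∃ c d C₁, Reach C ((c, d) :: C₁) ∧ c ∈ hs R (alg k R C₁) ∧ d ∈ hs R (alg k R C₁) := by
  obtain ⟨D₁, c, d, D₂, rfl, hc, hd⟩ := exists_spare R C hlen hpos
  obtain ⟨w, hw, h⟩ := move_left D₁ c d
  have h1 := h.context [] D₂
  have hw' : w ∈ hs R (alg k R (D₁ ++ D₂)) :=
    hs_mono R (mem_left R D₁ D₂) (closure_sub R D₁ hw)
  have hc' := hs_mono R (mem_left R D₁ D₂) hc
  have hd' := hs_mono R (mem_left R D₁ D₂) hd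
  refine ⟨w * c * w⁻¹, w * d * w⁻¹, D₁ ++ D₂, by simpa using h1, ?_, ?_⟩
  · exact Subgroup.mul_mem _ (Subgroup.mul_mem _ hw' hc') (Subgroup.inv_mem _ hw')
  · exact Subgroup.mul_mem _ (Subgroup.mul_mem _ hw' hd') (Subgroup.inv_mem _ hw')

/-- a redundant handle at the left end of `C` is in the algebra of `B` -/
theorem left_spare [FiniteDimensional k M] {R : Γ →* M} {B C : List (Γ × Γ)} {c d : Γ}
    (h : MaxPair k R B ((c, d) :: C)) (hlen : finrank k M ≤ B.length) (hpos : 1 ≤ finrank k M)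
    (hc : c ∈ hs R (alg k R C)) (hd : d ∈ hs R (alg k R C)) :
    c ∈ hs R (alg k R B) ∧ d ∈ hs R (alg k R B) := by
  obtain ⟨B₁, a, b, hr, ha, hb⟩ := spare_right R B hlen hpos
  have h1 := (pair_two (h.reach hr (Reach.refl _)) ha hb hc hd).1
  rw [← alg_append_single R B₁ (a, b) ha hb, alg_reach R hr] at h1
  exact h1

/-- a redundant handle at the right end of `B` is in the algebra of `C` -/
theorem right_spare [FiniteDimensional k M] {R : Γ →* M} {B C : List (Γ × Γ)} {a b : Γ}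
    (h : MaxPair k R (B ++ [(a, b)]) C) (hlen : finrank k M ≤ C.length) (hpos : 1 ≤ finrank k M)
    (ha : a ∈ hs R (alg k R B)) (hb : b ∈ hs R (alg k R B)) :
    a ∈ hs R (alg k R C) ∧ b ∈ hs R (alg k R C) := by
  obtain ⟨c, d, C₁, hr, hc, hd⟩ := spare_left R C hlen hpos
  have h1 := (pair_two (h.reach (Reach.refl _) hr) ha hb hc hd).2
  rw [← alg_cons_single R C₁ (c, d) hc hd, alg_reach R hr] at h1
  exact h1

/-- import of a further handle from the right -/
theorem left_step [FiniteDimensional k M] {R : Γ →* M} {B C : List (Γ × Γ)} {c d e f : Γ}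
    (h : MaxPair k R B ((c, d) :: (e, f) :: C)) (hlen : finrank k M ≤ B.length)
    (hpos : 1 ≤ finrank k M) (hc : c ∈ hs R (alg k R C)) (hd : d ∈ hs R (alg k R C)) :
    e ∈ hs R (alg k R B) ∧ f ∈ hs R (alg k R B) := by
  set H := hs R (alg k R B) with hH
  have key : ∀ e f : Γ, MaxPair k R B ((c, d) :: (e, f) :: C) → e * f * e⁻¹ ∈ H := by
    intro e f h
    obtain ⟨h1, h2⟩ := left_spare h hlen hpos (tail_le R (e, f) C hc) (tail_le R (e, f) C hd)
    have h3 : MaxPair k R B ((c, d * c⁻¹ * d⁻¹ * e * f * e⁻¹ * d) ::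
        (d * c⁻¹ * d⁻¹ * e, f) :: C) :=
      h.reach (Reach.refl _) (by simpa using Reach.of_step (Step.sl [] C c d e f))
    set K := hs R (alg k R ((d * c⁻¹ * d⁻¹ * e, f) :: C)) with hK
    have kc : c ∈ K := tail_le R _ C hc
    have kd : d ∈ K := tail_le R _ C hd
    obtain ⟨k1, k2⟩ := head_mem (k := k) R (d * c⁻¹ * d⁻¹ * e) f C
    have ke : e ∈ K := by
      have h4 := K.mul_mem (K.mul_mem (K.mul_mem kd kc) (K.inv_mem kd)) k1
      have e1 : d * c * d⁻¹ * (d * c⁻¹ * d⁻¹ * e) = e := by group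
      rwa [e1] at h4
    have k3 : d * c⁻¹ * d⁻¹ * e * f * e⁻¹ * d ∈ K :=
      K.mul_mem (K.mul_mem (K.mul_mem (K.mul_mem (K.mul_mem (K.mul_mem kd (K.inv_mem kc))
        (K.inv_mem kd)) ke) k2) (K.inv_mem ke)) kd
    obtain ⟨-, h5⟩ := left_spare h3 hlen hpos kc k3
    have h6 := H.mul_mem (H.mul_mem (H.mul_mem (H.mul_mem h2 h1) (H.inv_mem h2)) h5)
      (H.inv_mem h2)
    have e2 : d * c * d⁻¹ * (d * c⁻¹ * d⁻¹ * e * f * e⁻¹ * d) * d⁻¹ = e * f * e⁻¹ := by group
    rwa [e2] at h6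
  have h1 := key e f h
  have h2 := key (e * f * e⁻¹) e⁻¹ (h.reach (Reach.refl _) (by
    simpa using Reach.of_step (Step.rot' [(c, d)] C e f)))
  have h5 := H.mul_mem (H.mul_mem (H.inv_mem h1) h2) h1
  have e1 : (e * f * e⁻¹)⁻¹ * (e * f * e⁻¹ * e⁻¹ * (e * f * e⁻¹)⁻¹) * (e * f * e⁻¹) = e⁻¹ := by
    group
  have h6 : e ∈ H := by
    rw [e1] at h5
    exact (inv_mem_iff (H := H)).1 h5
  refine ⟨h6, ?_⟩
  have h7 := H.mul_mem (H.mul_mem (H.inv_mem h6) h1) h6
  have e2 : e⁻¹ * (e * f * e⁻¹) * e = f := by group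
  rwa [e2] at h7

/-- import of a further handle from the left -/
theorem right_step [FiniteDimensional k M] {R : Γ →* M} {B C : List (Γ × Γ)} {a b e f : Γ}
    (h : MaxPair k R (B ++ [(e, f), (a, b)]) C) (hlen : finrank k M ≤ C.length)
    (hpos : 1 ≤ finrank k M) (ha : a ∈ hs R (alg k R B)) (hb : b ∈ hs R (alg k R B)) :
    e ∈ hs R (alg k R C) ∧ f ∈ hs R (alg k R C) := by
  set H := hs R (alg k R C) with hH
  have key : ∀ e f : Γ, MaxPair k R (B ++ [(e, f), (a, b)]) C → f * e * f⁻¹ ∈ H := by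
    intro e f h
    have h' : MaxPair k R ((B ++ [(e, f)]) ++ [(a, b)]) C := by simpa using h
    obtain ⟨h1, h2⟩ := right_spare h' hlen hpos (init_le R (e, f) B ha) (init_le R (e, f) B hb)
    have h3 : MaxPair k R ((B ++ [(e, a * b⁻¹ * a⁻¹ * f * e)]) ++
        [(a * b⁻¹ * a⁻¹ * f * e * f⁻¹ * a * b, b)]) C :=
      h.reach (by simpa using Reach.of_step (Step.sl' B [] e f a b)) (Reach.refl _)
    set K := hs R (alg k R (B ++ [(e, a * b⁻¹ * a⁻¹ * f * e)])) with hK
    have ka : a ∈ K := init_le R _ B ha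
    have kb : b ∈ K := init_le R _ B hb
    obtain ⟨k1, k2⟩ := last_mem (k := k) R e (a * b⁻¹ * a⁻¹ * f * e) B
    have kf : f ∈ K := by
      have h4 := K.mul_mem (K.mul_mem (K.mul_mem (K.mul_mem ka kb) (K.inv_mem ka)) k2)
        (K.inv_mem k1)
      have e1 : a * b * a⁻¹ * (a * b⁻¹ * a⁻¹ * f * e) * e⁻¹ = f := by group
      rwa [e1] at h4
    have k3 : a * b⁻¹ * a⁻¹ * f * e * f⁻¹ * a * b ∈ K :=
      K.mul_mem (K.mul_mem (K.mul_mem (K.mul_mem (K.mul_mem (K.mul_mem (K.mul_mem ka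
        (K.inv_mem kb)) (K.inv_mem ka)) kf) k1) (K.inv_mem kf)) ka) kb
    obtain ⟨h5, -⟩ := right_spare h3 hlen hpos k3 kb
    have h6 := H.mul_mem (H.mul_mem (H.mul_mem (H.mul_mem (H.mul_mem h1 h2) (H.inv_mem h1)) h5)
      (H.inv_mem h2)) (H.inv_mem h1)
    have e2 : a * b * a⁻¹ * (a * b⁻¹ * a⁻¹ * f * e * f⁻¹ * a * b) * b⁻¹ * a⁻¹ = f * e * f⁻¹ := by
      group
    rwa [e2] at h6
  have h1 := key e f h
  have h2 := key f⁻¹ (f * e * f⁻¹) (h.reach (by
    simpa using Reach.of_step (Step.rot B [(a, b)] e f)) (Reach.refl _))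
  have h5 := H.mul_mem (H.mul_mem (H.inv_mem h1) h2) h1
  have e1 : (f * e * f⁻¹)⁻¹ * (f * e * f⁻¹ * f⁻¹ * (f * e * f⁻¹)⁻¹) * (f * e * f⁻¹) = f⁻¹ := by
    group
  have h6 : f ∈ H := by
    rw [e1] at h5
    exact (inv_mem_iff (H := H)).1 h5
  refine ⟨?_, h6⟩
  have h7 := H.mul_mem (H.mul_mem (H.inv_mem h6) h1) h6
  have e2 : f⁻¹ * (f * e * f⁻¹) * f = e := by group
  rwa [e2] at h7

end Helper55.Pw
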