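import Pool.Agent.Helper55.PwChain
import Pool.Agent.Helper12.ScBridge

/-!
# Surface groups in large genus: traces on simple loops determine the character
-/

set_option autoImplicit false

namespace Helper55.Pw

open Helper12.Sc Module SurfaceGroup

theorem simple_of_ext {g : ℕ} {x y : SurfaceGroup g} (h : Ext (std g) [(x, y)]) :
    IsNonseparatingSimple x := by
  obtain ⟨junk, hr⟩ := h
  have hr' : Reach ((std g).map (Prod.map (MonoidHom.id _) (MonoidHom.id _)))
      (junk ++ [(x, y)]) := by
    have : (std g).map (Prod.map (MonoidHom.id (SurfaceGroup g)) (MonoidHom.id _)) = std g := by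
      conv_rhs => rw [← List.map_id (std g)]
      rfl
    rw [this]
    exact hr
  obtain ⟨φ, hφ⟩ := reach_aut (MonoidHom.id _) hr'
  have h1 : (x, y) ∈ (std g).map fun p => ((MonoidHom.id _) (φ p.1), (MonoidHom.id _) (φ p.2)) := by
    rw [← hφ]
    simp
  obtain ⟨q, hq, hq2⟩ := List.mem_map.1 h1
  unfold std at hq
  rw [List.mem_ofFn] at hq
  obtain ⟨i, rfl⟩ := hq
  exact ⟨φ, i, (congrArg Prod.fst hq2).symm⟩

/-- Two representations of rank `r` of the fundamental group of a closed surface of genus
`g ≥ 4 r ^ 4 + 2 r ^ 2` whose traces agree on all non-separating simple closed curves have the same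
character. -/
theorem trace_eq (r g : ℕ) (hg : 4 * r ^ 4 + 2 * r ^ 2 ≤ g) {K : Type*} [Field K]
    (ρ₁ ρ₂ : SurfaceGroup g →* GL (Fin r) K)
    (h : ∀ x : SurfaceGroup g, IsNonseparatingSimple x →
      (ρ₁ x : Matrix (Fin r) (Fin r) K).trace = (ρ₂ x : Matrix (Fin r) (Fin r) K).trace)
    (x : SurfaceGroup g) :
    (ρ₁ x : Matrix (Fin r) (Fin r) K).trace = (ρ₂ x : Matrix (Fin r) (Fin r) K).trace := by
  let R : SurfaceGroup g →* Matrix (Fin r) (Fin r) K × Matrix (Fin r) (Fin r) K :=
    ((Units.coeHom _).comp ρ₁).prod ((Units.coeHom _).comp ρ₂)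
  let T : Matrix (Fin r) (Fin r) K × Matrix (Fin r) (Fin r) K →ₗ[K] K :=
    (Matrix.traceLinearMap (Fin r) K K).comp (LinearMap.fst K _ _) -
      (Matrix.traceLinearMap (Fin r) K K).comp (LinearMap.snd K _ _)
  have hTR : ∀ y : SurfaceGroup g, T (R y) = (ρ₁ y : Matrix (Fin r) (Fin r) K).trace -
      (ρ₂ y : Matrix (Fin r) (Fin r) K).trace := fun y => rfl
  have hfin : finrank K (Matrix (Fin r) (Fin r) K × Matrix (Fin r) (Fin r) K) = 2 * r ^ 2 := by
    rw [Module.finrank_prod, Module.finrank_matrix, Fintype.card_fin, Module.finrank_self]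
    ring
  have h1 := relation R (std g) (by
    rw [hfin, std_length]
    refine le_trans (le_of_eq ?_) hg
    ring) T (by
      have := hTR 1
      rw [map_one] at this
      rw [this, map_one, map_one, sub_self]) (fun y z hyz => by
        rw [hTR, h y (simple_of_ext hyz), sub_self]) x (by
          rw [closure_std]
          exact Subgroup.mem_top x)
  rw [hTR] at h1
  exact sub_eq_zero.1 h1

end Helper55.Pw
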