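import Mathlib

/-!
A removal game.  A finite set `R` of items is split into `k` parts, the opponent removes one of
the parts, the rest is split again into `k - 1` parts, and so on.  Every item has one of `N` types.
If at the start there are at most `s` items per part on average, then for large `k` the opponent
can force that at most `s` types survive.
-/

open Finset

namespace Pool.Agent.Helper55.SeqPick

variable {ι : Type*} {N : ℕ}

/-- The opponent can force the property `G` while at least `K` parts remain. -/
inductive Force (K : ℕ) (G : Finset ι → Prop) : ℕ → Finset ι → Prop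
  | goal {k : ℕ} {R : Finset ι} (hk : K ≤ k) (hG : G R) : Force K G k R
  | step {k : ℕ} {R : Finset ι} (hk : K ≤ k) (c : (ι → ℕ) → ℕ)
      (hc : ∀ f : ι → ℕ, (∀ g, f g < k + 1) → c f < k + 1)
      (h : ∀ f : ι → ℕ, (∀ g, f g < k + 1) → Force K G k (R.filter fun g => f g ≠ c f)) :
      Force K G (k + 1) R

theorem Force.step' {K : ℕ} {G : Finset ι → Prop} {k : ℕ} {R : Finset ι} (hk : K ≤ k)
    (h : ∀ f : ι → ℕ, (∀ g, f g < k + 1) →
      ∃ j, j < k + 1 ∧ Force K G k (R.filter fun g => f g ≠ j)) :
    Force K G (k + 1) R := by
  classical
  refine Force.step hk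
    (fun f => if hf : ∀ g, f g < k + 1 then Classical.choose (h f hf) else 0) ?_ ?_
  · intro f hf
    simp only [dif_pos hf]
    exact (Classical.choose_spec (h f hf)).1
  · intro f hf
    simp only [dif_pos hf]
    exact (Classical.choose_spec (h f hf)).2

/-- Phase 2: few items have a type outside `U`; the opponent removes them. -/
theorem force_clean [DecidableEq ι] (τ : ι → Fin N) {s K : ℕ} {U : Finset (Fin N)}
    (hU : U.card ≤ s) :
    ∀ (a k : ℕ) (R : Finset ι), (R.filter fun g => τ g ∉ U).card ≤ a → K + a ≤ k →
      Force K (fun R => (R.image τ).card ≤ s) k R := by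
  intro a
  induction a with
  | zero =>
    intro k R hR hk
    refine Force.goal (by omega) ?_
    have h0 : (R.filter fun g => τ g ∉ U) = ∅ := by
      rw [← Finset.card_eq_zero]; omega
    refine le_trans (Finset.card_le_card ?_) hU
    intro T hT
    obtain ⟨g, hg, rfl⟩ := Finset.mem_image.1 hT
    by_contra hcon
    have : g ∈ (R.filter fun g => τ g ∉ U) := Finset.mem_filter.2 ⟨hg, hcon⟩
    rw [h0] at this
    simp at this
  | succ a ih =>
    intro k R hR hk
    by_cases hg : ∃ g ∈ R, τ g ∉ U
    · obtain ⟨g, hgR, hgU⟩ := hg
      obtain ⟨k, rfl⟩ : ∃ k', k = k' + 1 := ⟨k - 1, by omega⟩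
      refine Force.step' (by omega) ?_
      intro f hf
      refine ⟨f g, hf g, ih k _ ?_ (by omega)⟩
      have hlt : ((R.filter fun g' => f g' ≠ f g).filter fun g => τ g ∉ U).card
          < (R.filter fun g => τ g ∉ U).card := by
        apply Finset.card_lt_card
        rw [Finset.ssubset_iff_of_subset]
        · refine ⟨g, Finset.mem_filter.2 ⟨hgR, hgU⟩, ?_⟩
          simp
        · intro x hx
          simp only [Finset.mem_filter] at hx ⊢
          exact ⟨hx.1.1, hx.2⟩
      omega
    · push Not at hg
      refine Force.goal (by omega) ?_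
      refine le_trans (Finset.card_le_card ?_) hU
      intro T hT
      obtain ⟨g, hg', rfl⟩ := Finset.mem_image.1 hT
      exact hg g hg'

/-- Uniqueness of base `q` digits. -/
theorem digits_unique {q : ℕ} (hq : 0 < q) : ∀ (n : ℕ) (f h : ℕ → ℕ),
    (∀ i, i < n → f i < q) → (∀ i, i < n → h i < q) →
    ∑ i ∈ range n, f i * q ^ i = ∑ i ∈ range n, h i * q ^ i → ∀ i, i < n → f i = h i := by
  intro n
  induction n with
  | zero => intro f h _ _ _ i hi; omega
  | succ n ih =>
    intro f h hf hh heq i hi
    rw [Finset.sum_range_succ', Finset.sum_range_succ'] at heq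
    have e1 : ∀ f : ℕ → ℕ, ∑ i ∈ range n, f (i + 1) * q ^ (i + 1)
        = q * ∑ i ∈ range n, f (i + 1) * q ^ i := by
      intro f
      rw [Finset.mul_sum]
      refine Finset.sum_congr rfl fun i _ => ?_
      ring
    rw [e1 f, e1 h] at heq
    simp only [pow_zero, mul_one] at heq
    have h0 : f 0 = h 0 := by
      have := congrArg (· % q) heq
      simp only [Nat.mul_add_mod] at this
      rwa [Nat.mod_eq_of_lt (hf 0 (by omega)), Nat.mod_eq_of_lt (hh 0 (by omega))] at this
    have h1 : ∑ i ∈ range n, f (i + 1) * q ^ i = ∑ i ∈ range n, h (i + 1) * q ^ i := by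
      rw [h0] at heq
      have := Nat.add_right_cancel heq
      exact Nat.eq_of_mul_eq_mul_left hq this
    rcases i with _ | i
    · exact h0
    · exact ih (fun i => f (i + 1)) (fun i => h (i + 1)) (fun i hi => hf _ (by omega))
        (fun i hi => hh _ (by omega)) h1 i (by omega)

/-- the weight of an item of type `T` in base `q = s + 1`. -/
def wt (τ : ι → Fin N) (q : ℕ) (g : ι) : ℕ := q ^ N + q ^ (τ g).val

/-- the weight of a set of items. -/
def W (τ : ι → Fin N) (q : ℕ) (A : Finset ι) : ℕ := ∑ g ∈ A, wt τ q g

theorem W_eq_digits [DecidableEq ι] (τ : ι → Fin N) (q : ℕ) (A : Finset ι) :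
    W τ q A = ∑ i ∈ range (N + 1),
      (if i = N then A.card else (A.filter fun g => (τ g).val = i).card) * q ^ i := by
  rw [Finset.sum_range_succ]
  simp only [if_true]
  unfold W wt
  rw [Finset.sum_add_distrib, Finset.sum_const, smul_eq_mul, add_comm]
  congr 1
  have h1 : ∀ i ∈ range N,
      (if i = N then A.card else (A.filter fun g => (τ g).val = i).card) * q ^ i
        = ∑ g ∈ A.filter (fun g => (τ g).val = i), q ^ (τ g).val := by
    intro i hi
    have hi' : i ≠ N := by
      have := Finset.mem_range.1 hi; omega
    rw [if_neg hi']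
    rw [Finset.sum_congr rfl (g := fun _ => q ^ i)
      (fun g hg => by rw [(Finset.mem_filter.1 hg).2])]
    rw [Finset.sum_const, smul_eq_mul]
  rw [Finset.sum_congr rfl h1]
  rw [Finset.sum_fiberwise_of_maps_to (g := fun g => (τ g).val) (t := range N)]
  intro g _
  exact Finset.mem_range.2 (τ g).2

theorem card_le_of_W_lt [DecidableEq ι] (τ : ι → Fin N) {s : ℕ} {A : Finset ι}
    (h : W τ (s + 1) A < (s + 1) ^ (N + 1)) : A.card ≤ s := by
  have h1 : A.card * (s + 1) ^ N ≤ W τ (s + 1) A := by
    unfold W wt
    rw [Finset.sum_add_distrib, Finset.sum_const, smul_eq_mul]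
    exact Nat.le_add_right _ _
  have h2 : A.card * (s + 1) ^ N < (s + 1) * (s + 1) ^ N := by
    calc A.card * (s + 1) ^ N ≤ W τ (s + 1) A := h1
      _ < (s + 1) ^ (N + 1) := h
      _ = (s + 1) * (s + 1) ^ N := by ring
  have := Nat.lt_of_mul_lt_mul_right h2
  omega

theorem image_eq_of_W_eq [DecidableEq ι] (τ : ι → Fin N) {s : ℕ} {A B : Finset ι}
    (hA : W τ (s + 1) A < (s + 1) ^ (N + 1)) (h : W τ (s + 1) A = W τ (s + 1) B) :
    A.image τ = B.image τ := by
  have hAc := card_le_of_W_lt τ hA
  have hBc := card_le_of_W_lt τ (h ▸ hA)
  rw [W_eq_digits, W_eq_digits] at h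
  have hd : ∀ (A : Finset ι), A.card ≤ s → ∀ i, i < N + 1 →
      (if i = N then A.card else (A.filter fun g => (τ g).val = i).card) < s + 1 := by
    intro A hA i _
    split_ifs
    · omega
    · exact lt_of_le_of_lt (Finset.card_filter_le _ _) (by omega)
  have key := digits_unique (Nat.succ_pos s) (N + 1) _ _ (hd A hAc) (hd B hBc) h
  ext T
  have hT := key T.val (by have := T.2; omega)
  have hTN : T.val ≠ N := by have := T.2; omega
  rw [if_neg hTN, if_neg hTN] at hT
  have aux : ∀ A : Finset ι, T ∈ A.image τ ↔ 0 < (A.filter fun g => (τ g).val = T.val).card := by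
    intro A
    rw [Finset.card_pos, Finset.mem_image]
    constructor
    · rintro ⟨g, hg, rfl⟩
      exact ⟨g, Finset.mem_filter.2 ⟨hg, rfl⟩⟩
    · rintro ⟨g, hg⟩
      obtain ⟨hg1, hg2⟩ := Finset.mem_filter.1 hg
      exact ⟨g, hg1, Fin.ext hg2⟩
  rw [aux, aux, hT]

theorem W_partition [DecidableEq ι] (τ : ι → Fin N) (q k : ℕ) (R : Finset ι) (f : ι → ℕ)
    (hf : ∀ g, f g < k) :
    ∑ j ∈ range k, W τ q (R.filter fun g => f g = j) = W τ q R := by
  unfold W
  exact Finset.sum_fiberwise_of_maps_to (fun g _ => Finset.mem_range.2 (hf g)) _

theorem W_remove [DecidableEq ι] (τ : ι → Fin N) (q : ℕ) (R : Finset ι) (f : ι → ℕ) (j : ℕ) :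
    W τ q (R.filter fun g => f g = j) + W τ q (R.filter fun g => f g ≠ j) = W τ q R := by
  unfold W
  exact Finset.sum_filter_add_sum_filter_not R (fun g => f g = j) _

/-- How many parts are needed in the forcing lemma. -/
def bound (s K : ℕ) : ℕ → ℕ
  | 0 => K
  | ν + 1 => max (bound s K ν) K + (K + s * max (bound s K ν) K + 1) + max (bound s K ν) K

/-- The main forcing lemma. -/
theorem force_main [DecidableEq ι] (τ : ι → Fin N) (s K : ℕ) :
    ∀ ν : ℕ, ν < (s + 1) ^ (N + 1) → ∀ k, bound s K ν ≤ k → ∀ R : Finset ι,
      W τ (s + 1) R ≤ k * ν → Force K (fun R => (R.image τ).card ≤ s) k R := by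
  intro ν
  induction ν with
  | zero =>
    intro _
    refine fun k hk R hR => Force.goal hk ?_
    have hR0 : R = ∅ := by
      rw [Finset.eq_empty_iff_forall_notMem]
      intro g hg
      have h1 : wt τ (s + 1) g ≤ W τ (s + 1) R :=
        Finset.single_le_sum (f := wt τ (s + 1)) (fun _ _ => Nat.zero_le _) hg
      have h2 : 0 < wt τ (s + 1) g := by
        unfold wt
        positivity
      omega
    simp [hR0]
  | succ ν ih =>
    intro hν
    have hn₁ := ih (by omega)
    set K₁ := max (bound s K ν) K with hK₁
    have hK₁a : bound s K ν ≤ K₁ := le_max_left _ _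
    have hK₁b : K ≤ K₁ := le_max_right _ _
    -- sub-lemma A
    have subA : ∀ k, K₁ ≤ k → ∀ R : Finset ι, W τ (s + 1) R + K₁ ≤ k * (ν + 1) →
        Force K (fun R => (R.image τ).card ≤ s) k R := by
      intro k
      induction k with
      | zero =>
        intro hk R hR
        refine hn₁ 0 (by omega) R ?_
        omega
      | succ k ihk =>
        intro hk R hR
        by_cases hcase : W τ (s + 1) R ≤ (k + 1) * ν
        · exact hn₁ (k + 1) (by omega) R hcase
        · push Not at hcase
          have hk' : K₁ ≤ k := by
            have : (k + 1) * (ν + 1) = (k + 1) * ν + (k + 1) := by ring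
            omega
          refine Force.step' (by omega) ?_
          intro f hf
          have hsum := W_partition τ (s + 1) (k + 1) R f hf
          obtain ⟨j, hj, hjlt⟩ : ∃ j ∈ range (k + 1),
              ν < W τ (s + 1) (R.filter fun g => f g = j) := by
            apply Finset.exists_lt_of_sum_lt
            rw [Finset.sum_const, Finset.card_range, smul_eq_mul, hsum]
            exact hcase
          refine ⟨j, Finset.mem_range.1 hj, ihk hk' _ ?_⟩
          have hrem := W_remove τ (s + 1) R f j
          have : (k + 1) * (ν + 1) = k * (ν + 1) + (ν + 1) := by ring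
          omega
    -- sub-lemma B
    have subB : ∀ a k, K₁ + (K + s * K₁ + 1) + a ≤ k → ∀ R : Finset ι,
        W τ (s + 1) R ≤ k * (ν + 1) → W τ (s + 1) R + K₁ ≤ k * (ν + 1) + a →
        Force K (fun R => (R.image τ).card ≤ s) k R := by
      intro a
      induction a with
      | zero =>
        intro k hk R hR hR'
        exact subA k (by omega) R (by omega)
      | succ a iha =>
        intro k hk R hR hR'
        by_cases hD : W τ (s + 1) R + K₁ ≤ k * (ν + 1)
        · exact subA k (by omega) R hD
        · push Not at hD
          obtain ⟨k, rfl⟩ : ∃ k', k = k' + 1 := ⟨k - 1, by omega⟩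
          refine Force.step' (by omega) ?_
          intro f hf
          have hsum := W_partition τ (s + 1) (k + 1) R f hf
          have hexp : (k + 1) * (ν + 1) = k * (ν + 1) + (ν + 1) := by ring
          by_cases hbig : ∃ j ∈ range (k + 1), ν + 1 < W τ (s + 1) (R.filter fun g => f g = j)
          · obtain ⟨j, hj, hjlt⟩ := hbig
            have hrem := W_remove τ (s + 1) R f j
            refine ⟨j, Finset.mem_range.1 hj, iha k (by omega) _ (by omega) (by omega)⟩
          · push Not at hbig
            -- the parts of smaller weight
            set small := (range (k + 1)).filter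
              (fun j => W τ (s + 1) (R.filter fun g => f g = j) < ν + 1) with hsmall
            have hsmallcard : small.card < K₁ := by
              have h1 : ∑ j ∈ range (k + 1), (W τ (s + 1) (R.filter fun g => f g = j)
                  + if W τ (s + 1) (R.filter fun g => f g = j) < ν + 1 then 1 else 0)
                  ≤ ∑ j ∈ range (k + 1), (ν + 1) := by
                refine Finset.sum_le_sum fun j hj => ?_
                have := hbig j hj
                split_ifs with hlt <;> omega
              rw [Finset.sum_add_distrib, hsum, Finset.sum_const, Finset.card_range,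
                smul_eq_mul, ← Finset.card_filter] at h1
              rw [hsmall]
              omega
            obtain ⟨j₀, hj₀, hj₀s⟩ : ∃ j ∈ range (k + 1), j ∉ small := by
              by_contra hcon
              push Not at hcon
              have : range (k + 1) ⊆ small := hcon
              have := Finset.card_le_card this
              rw [Finset.card_range] at this
              omega
            have hj₀W : W τ (s + 1) (R.filter fun g => f g = j₀) = ν + 1 := by
              have h1 := hbig j₀ hj₀
              have h2 : ¬ W τ (s + 1) (R.filter fun g => f g = j₀) < ν + 1 := by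
                intro h
                exact hj₀s (Finset.mem_filter.2 ⟨hj₀, h⟩)
              omega
            set U := (R.filter fun g => f g = j₀).image τ with hU
            have hUcard : U.card ≤ s := by
              refine le_trans Finset.card_image_le ?_
              exact card_le_of_W_lt τ (by rw [hj₀W]; exact hν)
            refine ⟨j₀, Finset.mem_range.1 hj₀, ?_⟩
            refine force_clean τ hUcard (s * K₁) k _ ?_ (by omega)
            -- outside items lie in small parts
            have hsub : ((R.filter fun g => f g ≠ j₀).filter fun g => τ g ∉ U) ⊆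
                small.biUnion (fun j => R.filter fun g => f g = j) := by
              intro g hg
              simp only [Finset.mem_filter] at hg
              obtain ⟨⟨hgR, hgj⟩, hgU⟩ := hg
              refine Finset.mem_biUnion.2 ⟨f g, ?_, Finset.mem_filter.2 ⟨hgR, rfl⟩⟩
              refine Finset.mem_filter.2 ⟨Finset.mem_range.2 (hf g), ?_⟩
              by_contra hcon
              have h1 := hbig (f g) (Finset.mem_range.2 (hf g))
              have h2 : W τ (s + 1) (R.filter fun g' => f g' = f g) = ν + 1 := by omega
              have h3 : (R.filter fun g' => f g' = f g).image τ = U :=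
                image_eq_of_W_eq τ (by rw [h2]; exact hν) (by rw [h2, hj₀W])
              apply hgU
              rw [← h3]
              exact Finset.mem_image.2 ⟨g, Finset.mem_filter.2 ⟨hgR, rfl⟩, rfl⟩
            refine le_trans (Finset.card_le_card hsub) ?_
            refine le_trans Finset.card_biUnion_le ?_
            have hle : ∑ j ∈ small, (R.filter fun g => f g = j).card ≤ ∑ j ∈ small, s := by
              refine Finset.sum_le_sum fun j hj => ?_
              have h1 := hbig j (Finset.mem_filter.1 hj).1
              exact card_le_of_W_lt τ (lt_of_le_of_lt h1 hν)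
            refine le_trans hle ?_
            rw [Finset.sum_const, smul_eq_mul, mul_comm]
            exact Nat.mul_le_mul_left s hsmallcard.le
    intro k hk R hR
    exact subB K₁ k hk R hR (by omega)

end Pool.Agent.Helper55.SeqPick
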